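import Pool.Agent.H409_AG.PartA
import Pool.Agent.H409_AG.PartB
import Pool.Agent.H409_AG.PartC
import Pool.Agent.Helper636_AG.AbAsm

/-!
# It is consistent with ZFC that a Borel abelian group on the reals is aleph_omega-free, not free

The four parts of the theorem are theorems of ZFC. The forcing relation is the one of
`Pool.Agent.Helper669.Forcing`: a sentence about the extension is the set of the conditions which
force it, and a name for a subset of a ground model set `X` is a map from `X` to sets of
conditions. The other definitions are in `Pool.Agent.H409_AG.Defs` (the incompact graph and the
ladder systems) and in `Pool.Agent.Helper636_AG.AbDefs` (abelian groups with underlying set `ℝ`).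

Starting with any model of ZFC, (1) gives an extension with the continuum hypothesis; (2) gives a
further extension with the continuum hypothesis and a ladder system on a stationary subset of
`ℵ_{ω+1}` which is free on each bounded part (in the sense of `IsLadder`; the cardinals up to
`ℵ_{ω+1}` are not changed); (3) gives a further extension, with the same cardinals, in which some
closed graph on the Baire space has an orientation with countable outdegrees on each family of
fewer than `ℵ_ω` points, but not on all families; and by (4) there is in this model an abelian
group on the set of all real numbers whose graph is Borel (hence also analytic), all of whose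
subgroups of size less than `ℵ_ω` are free, and which is not free. So the statements `S_(b)` and
`S_(c)` of the problem are not theorems of ZFC.
-/

set_option autoImplicit false

namespace Pool.Agent.Results.MP_e75763_lc.BorelAnalyticClasses

open Cardinal Pool.Agent.Helper669.Forcing Pool.Agent.H409_AG Pool.Agent.Helper636_AG.Ab

/-- The consistency with ZFC of an abelian group on `ℝ` with a Borel (and analytic) graph which is
`ℵ_ω`-free but not free. (1) The continuum hypothesis can be forced. (2) Under the continuum
hypothesis one can force the continuum hypothesis together with a ladder system, preserving the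
cardinals up to `ℵ_{ω+1}`. (3) Under the continuum hypothesis, if there is a ladder system, one can
force the existence of an incompact closed graph, preserving cardinals. (4) If there is an
incompact closed graph, then some abelian group with underlying set `ℝ`, whose graph is Borel and
analytic, is `ℵ_ω`-free and not free. -/
theorem result :
    (∃ (Q : Type) (_ : Preorder Q), Nonempty Q ∧ ∀ q : Q,
      q ∈ ContinuumLe Q (ℵ₁ : Cardinal.{0}).out) ∧
    (ContinuumHyp → ∃ (Q : Type) (_ : Preorder Q), Nonempty Q ∧ ∀ q : Q,
      q ∈ ContinuumLe Q (ℵ₁ : Cardinal.{0}).out ∧
        q ∈ CardinalsPreservedTo Q (ℵ_ (Ordinal.omega0 + 1)) ∧ q ∈ LadderN Q) ∧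
    (ContinuumHyp → Ladder → ∃ (Q : Type) (_ : Preorder Q), Nonempty Q ∧ ∀ q : Q,
      q ∈ CardinalsPreserved.{0, 0} Q ∧ q ∈ IncompactN Q) ∧
    (Incompact → ∃ G : AddCommGroup ℝ, MeasurableSet (graph G) ∧
      MeasureTheory.AnalyticSet (graph G) ∧ KappaFree (ℵ_ Ordinal.omega0) G ∧
        ¬ Module.Free ℤ (Carrier G)) := by
  refine ⟨ch_forced, ladder_forced, graph_forced, fun h => ?_⟩
  obtain ⟨G, hG, hfree, hno⟩ := Pool.Agent.Helper636_AG.AbD.abelian_group_of_incompact h
  exact ⟨G, hG, hG.analyticSet, hfree, hno⟩

end Pool.Agent.Results.MP_e75763_lc.BorelAnalyticClasses
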