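import Pool.Agent.Helper636_AG.AbDefs
import Pool.Agent.Helper636_AG.Fsigma

/-!
# Abelian groups on the reals with an F-sigma graph

No such group is `ℵ₁`-free. In particular the statement `S_(a)` of the problem is a theorem of ZFC.
-/

set_option autoImplicit false

namespace Pool.Agent.Results.MP_e75763_lc.FSigmaClass

open Cardinal Pool.Agent.Helper636_AG.Ab Pool.Agent.Helper636_AG.Fs

/-- Let `G` be an abelian group with underlying set `ℝ` such that the graph of the operation of `G`
is an `F_σ` subset of `ℝ × ℝ × ℝ`. Then `G` has a countable subgroup which is not free; hence if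
`G` is `ℵ_ω`-free then it is free (there is no such `G`). -/
theorem result : ∀ G : AddCommGroup ℝ, IsFSigma (graph G) →
    (∃ H : AddSubgroup (Carrier G), Countable H ∧ ¬ Module.Free ℤ H) ∧
      (KappaFree (ℵ_ Ordinal.omega0) G → Module.Free ℤ (Carrier G)) := by
  intro G hG
  have key : ∃ H : AddSubgroup (Carrier G), Countable H ∧ ¬ Module.Free ℤ H := by
    obtain ⟨F, hF, hU⟩ := hG
    let e : ℝ ≃ Carrier G := Equiv.refl ℝ
    have h1 : {q : ℝ × ℝ × ℝ | e q.1 + e q.2.1 = e q.2.2} =
        ⋃ n : ℕ, F n.unpair.1 ∩ Metric.closedBall 0 (n.unpair.2 : ℝ) := by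
      have h2 : {q : ℝ × ℝ × ℝ | e q.1 + e q.2.1 = e q.2.2} = ⋃ n, F n := hU
      rw [h2]
      ext q
      simp only [Set.mem_iUnion, Set.mem_inter_iff, Metric.mem_closedBall]
      constructor
      · rintro ⟨n, hn⟩
        obtain ⟨m, hm⟩ := exists_nat_ge (dist q 0)
        exact ⟨Nat.pair n m, by simpa using hn, by simpa using hm⟩
      · rintro ⟨n, hn, _⟩
        exact ⟨_, hn⟩
    obtain ⟨a, ha0, ha⟩ := exists_divisible e _
      (fun n => (isCompact_closedBall _ _).inter_left (hF _)) h1
    exact not_free_of_divisible a ha0 ha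
  refine ⟨key, fun hfree => ?_⟩
  obtain ⟨H, hc, hn⟩ := key
  exfalso
  apply hn
  apply hfree
  refine (mk_le_aleph0 (α := H)).trans_lt ?_
  rw [← aleph_zero, aleph_lt_aleph]
  exact Ordinal.omega0_pos

end Pool.Agent.Results.MP_e75763_lc.FSigmaClass
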